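import Mathlib

/-!
# Chou's property P and colourings (MP_51c6d3_al): definitions

`HasTile`, `HasP`: the property of the problem (two-sided).  `PC G`: every finite `F` lies in a finite `S` for which `G` has a colouring with
`|S|` colours such that all sets `g S⁻¹` and `S⁻¹ g` contain every colour exactly once.
`pc_mk`: indexed form with any type of colours.  `hasP_of_pc`: `X` = one colour class.
-/

set_option autoImplicit false

namespace Pool.Agent.H25.WP

open Set

universe u v w

/-- The finite set `F` lies in a finite `S` for which there is `X` with the left translates `x S`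
pairwise disjoint and the right translates `S x` covering the group. -/
def HasTile {G : Type*} [Group G] (F : Set G) : Prop :=
  ∃ S : Set G, S.Finite ∧ F ⊆ S ∧ ∃ X : Set G,
    (∀ x₁ ∈ X, ∀ x₂ ∈ X, x₁ ≠ x₂ →
      Disjoint ((fun s => x₁ * s) '' S) ((fun s => x₂ * s) '' S)) ∧
    (⋃ x ∈ X, (fun s => s * x) '' S) = univ

/-- Property `P` of the problem. -/
def HasP (G : Type*) [Group G] : Prop := ∀ F : Set G, F.Finite → HasTile F

/-- Every finite `F` lies in a finite `S` such that `G` has a colouring with `|S|` colours for which all the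
sets `g S⁻¹` and `S⁻¹ g` contain each colour exactly once. -/
def PC (G : Type*) [Group G] : Prop :=
  ∀ F : Finset G, ∃ S : Finset G, F ⊆ S ∧ ∃ κ : G → Fin S.card, ∀ g : G,
    Function.Bijective (fun s : {x // x ∈ S} => κ (g * (s : G)⁻¹)) ∧
    Function.Bijective (fun s : {x // x ∈ S} => κ ((s : G)⁻¹ * g))

theorem pc_mk {G : Type u} [Group G]
    (h : ∀ F : Finset G, ∃ (I : Type v) (_ : Finite I) (e : I → G) (C : Type w) (κ : G → C),
      (∀ f ∈ F, ∃ i, e i = f) ∧ ∀ g : G, Function.Bijective (fun i => κ (g * (e i)⁻¹)) ∧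
        Function.Bijective (fun i => κ ((e i)⁻¹ * g))) : PC G := by
  classical
  intro F
  obtain ⟨I, hI, e, C, κ, hF, hκ⟩ := h F
  have := Fintype.ofFinite I
  have he : Function.Injective e := by
    intro i j hij
    apply (hκ 1).1.1
    simp only [hij]
  set S : Finset G := Finset.univ.image e with hS
  have hcard : S.card = Fintype.card I := by
    rw [hS, Finset.card_image_of_injective _ he, Finset.card_univ]
  set α : I ≃ {x // x ∈ S} := Equiv.ofBijective
    (fun i => (⟨e i, by rw [hS]; exact Finset.mem_image_of_mem e (Finset.mem_univ i)⟩ : {x // x ∈ S}))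
    ⟨fun i j hij => he (congrArg Subtype.val hij), fun s => by
      obtain ⟨i, -, hi⟩ := Finset.mem_image.mp s.2
      exact ⟨i, Subtype.ext hi⟩⟩ with hα
  have hαe : ∀ i, ((α i : {x // x ∈ S}) : G) = e i := fun i => rfl
  have hes : ∀ s : {x // x ∈ S}, e (α.symm s) = s := by
    intro s
    rw [← hαe, Equiv.apply_symm_apply]
  obtain ⟨θ⟩ : Nonempty (C ≃ Fin S.card) := by
    refine ⟨(Equiv.ofBijective _ (hκ 1).1).symm.trans (Fintype.equivFinOfCardEq hcard.symm)⟩
  refine ⟨S, ?_, fun g => θ (κ g), ?_⟩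
  · intro f hf
    obtain ⟨i, hi⟩ := hF f hf
    rw [hS, Finset.mem_image]
    exact ⟨i, Finset.mem_univ _, hi⟩
  · intro g
    constructor
    · have h1 := θ.bijective.comp ((hκ g).1.comp α.symm.bijective)
      have h2 : (fun s : {x // x ∈ S} => θ (κ (g * (s : G)⁻¹))) =
          θ ∘ ((fun i => κ (g * (e i)⁻¹)) ∘ α.symm) := by
        funext s
        simp only [Function.comp, hes]
      rw [h2]
      exact h1
    · have h1 := θ.bijective.comp ((hκ g).2.comp α.symm.bijective)
      have h2 : (fun s : {x // x ∈ S} => θ (κ ((s : G)⁻¹ * g))) =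
          θ ∘ ((fun i => κ ((e i)⁻¹ * g)) ∘ α.symm) := by
        funext s
        simp only [Function.comp, hes]
      rw [h2]
      exact h1

theorem hasP_of_pc {G : Type u} [Group G] (h : PC G) : HasP G := by
  classical
  intro F hF
  obtain ⟨S, hFS, κ, hκ⟩ := h hF.toFinset
  have hS : 0 < S.card := lt_of_le_of_lt (Nat.zero_le _) (κ 1).2
  refine ⟨(S : Set G), S.finite_toSet, ?_, {x | κ x = ⟨0, hS⟩}, ?_, ?_⟩
  · intro f hf
    exact hFS (hF.mem_toFinset.mpr hf)
  · intro x hx y hy hxy
    rw [Set.disjoint_left]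
    rintro g ⟨s, hs, rfl⟩ ⟨t, ht, hgt⟩
    simp only at hgt
    have h1 := (hκ (x * s)).1.1
    have e1 : κ (x * s * s⁻¹) = κ (x * s * t⁻¹) := by
      rw [mul_inv_cancel_right, ← hgt, mul_inv_cancel_right]
      exact hx.trans hy.symm
    have e2 : (⟨s, hs⟩ : {x // x ∈ S}) = ⟨t, ht⟩ := h1 e1
    have e3 : s = t := congrArg Subtype.val e2
    rw [e3] at hgt
    exact hxy (mul_right_cancel hgt).symm
  · rw [Set.eq_univ_iff_forall]
    intro g
    obtain ⟨s, hs⟩ := (hκ g).2.2 ⟨0, hS⟩
    rw [Set.mem_iUnion₂]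
    exact ⟨(s : G)⁻¹ * g, hs, s, s.2, by simp⟩

end Pool.Agent.H25.WP
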