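import Pool.Agent.H25.WP.Defs

/-!
[H25 WP LOC]  Colourings for a finite subgroup.

`sg`: for a finite subgroup `U` of `G` there is `κ : G → C`, with the following property for every `g`: `u ↦ κ (g u⁻¹)` and
`u ↦ κ (u⁻¹ g)` are bijections `U → C`.  Paper proof.  On each double coset `U g U` (choose `g` for each one): `K' = U ∩ g⁻¹ U g`,
`q = |U : K'|`.  Every `x` in `U g U` is `x = a g b` with `a` in a fixed transversal `A` of `U / (U ∩ g U g⁻¹)` (`|A| = q`) and `b` in `U`, in exactly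
one way; write `b = k j`, `k` in `K'`, `j` in a fixed transversal `J` of `K' \ U` (`|J| = q`), also in exactly one way.  Colour of
`x`: `(k, i(a) + l(j))` in `K' × ZMod q`, `i : A ≃ ZMod q`, `l : J ≃ ZMod q`, and `K' × ZMod q` is in bijection with `U` (or with `Fin |U|`).
The left coset `x U` is `{a} × (all (k, j))`: bijective.  The right coset `U x` is `{a' g k' j : a', k'}` with the same `j`: bijective.
(Another way: any two partitions of a finite set into blocks of size `n` have a common colouring with `n` colours, each block gets each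
colour once: Hall's theorem `n` times.)
`loc_pc`: if every finite subset of `G` lies in a finite subgroup, then `PC G` (`pc_mk` with `I = U`).
-/

set_option autoImplicit false

namespace Pool.Agent.H25.WP

universe u

/-- the elements `u` of `U` with `g⁻¹ u g` in `U` -/
private def k1 {G : Type u} [Group G] (U : Subgroup G) (g : G) : Subgroup U where
  carrier := {w | g⁻¹ * (w : G) * g ∈ U}
  one_mem' := by simp [U.one_mem]
  mul_mem' := by
    intro a b ha hb
    have h := U.mul_mem ha hb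
    have e : g⁻¹ * (a : G) * g * (g⁻¹ * (b : G) * g) = g⁻¹ * ((a * b : U) : G) * g := by
      push_cast
      group
    rw [e] at h
    exact h
  inv_mem' := by
    intro a ha
    have h := U.inv_mem ha
    have e : (g⁻¹ * (a : G) * g)⁻¹ = g⁻¹ * ((a⁻¹ : U) : G) * g := by
      push_cast
      group
    rw [e] at h
    exact h

private theorem mem_k1 {G : Type u} [Group G] (U : Subgroup G) (g : G) (w : U) :
    w ∈ k1 U g ↔ g⁻¹ * (w : G) * g ∈ U := Iff.rfl

private theorem card_k1 {G : Type u} [Group G] (U : Subgroup G) (g : G) :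
    Nat.card (k1 U g) = Nat.card (k1 U g⁻¹) := by
  refine Nat.card_congr ⟨fun w => ⟨⟨g⁻¹ * (w : G) * g, w.2⟩, ?_⟩, fun w => ⟨⟨g * (w : G) * g⁻¹, ?_⟩, ?_⟩, ?_, ?_⟩
  · rw [mem_k1]
    have e : g⁻¹⁻¹ * (g⁻¹ * (w : G) * g) * g⁻¹ = (w : G) := by group
    show g⁻¹⁻¹ * (g⁻¹ * (w : G) * g) * g⁻¹ ∈ U
    rw [e]
    exact (w : U).2
  · have h := w.2
    rw [mem_k1, inv_inv] at h
    exact h
  · rw [mem_k1]
    have e : g⁻¹ * (g * (w : G) * g⁻¹) * g = (w : G) := by group
    show g⁻¹ * (g * (w : G) * g⁻¹) * g ∈ U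
    rw [e]
    exact (w : U).2
  · intro w
    apply Subtype.ext
    apply Subtype.ext
    show g * (g⁻¹ * (w : G) * g) * g⁻¹ = (w : G)
    group
  · intro w
    apply Subtype.ext
    apply Subtype.ext
    show g⁻¹ * (g * (w : G) * g⁻¹) * g = (w : G)
    group

private theorem one_dc {G : Type u} [Group G] (U : Subgroup G) [Finite U] (g : G) :
    ∃ c : G → Fin (Nat.card U), ∀ x y : G, (∃ a b : U, x = a * g * b) → (∃ a b : U, y = a * g * b) → c x = c y →
      ((x⁻¹ * y ∈ U) ∨ (x * y⁻¹ ∈ U)) → x = y := by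
  classical
  have hx : ∀ x : G, ∃ p : U × U, (∃ a b : U, x = a * g * b) → x = p.1 * g * p.2 := by
    intro x
    by_cases h : ∃ a b : U, x = a * g * b
    · obtain ⟨a, b, hab⟩ := h
      exact ⟨(a, b), fun _ => hab⟩
    · exact ⟨1, fun h' => absurd h' h⟩
  choose f hf using hx
  have hk := card_k1 U g
  have h1 := Subgroup.card_eq_card_quotient_mul_card_subgroup (k1 U g)
  have h2 := Subgroup.card_eq_card_quotient_mul_card_subgroup (k1 U g⁻¹)
  have hpos : 0 < Nat.card (k1 U g⁻¹) := Nat.card_pos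
  have hq : Nat.card (U ⧸ k1 U g) = Nat.card (U ⧸ k1 U g⁻¹) := by
    rw [hk] at h1
    exact Nat.eq_of_mul_eq_mul_right hpos (h1.symm.trans h2)
  have hqpos : 0 < Nat.card (U ⧸ k1 U g⁻¹) := Nat.card_pos
  have hne : NeZero (Nat.card (U ⧸ k1 U g⁻¹)) := ⟨hqpos.ne'⟩
  obtain ⟨e1⟩ : Nonempty ((U ⧸ k1 U g) ≃ ZMod (Nat.card (U ⧸ k1 U g⁻¹))) :=
    Finite.card_eq.1 (by rw [hq, Nat.card_zmod])
  obtain ⟨e2⟩ : Nonempty ((U ⧸ k1 U g⁻¹) ≃ ZMod (Nat.card (U ⧸ k1 U g⁻¹))) :=
    Finite.card_eq.1 (by rw [Nat.card_zmod])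
  obtain ⟨θ⟩ : Nonempty ((k1 U g⁻¹ × ZMod (Nat.card (U ⧸ k1 U g⁻¹))) ≃ Fin (Nat.card U)) := Finite.card_eq.1 (by
    rw [Nat.card_prod, Nat.card_zmod, Nat.card_fin, h2, mul_comm])
  let i : G → U ⧸ k1 U g := fun x => QuotientGroup.mk (f x).1
  let l : G → U ⧸ k1 U g⁻¹ := fun x => QuotientGroup.mk ((f x).2)⁻¹
  let a : G → U := fun x => (i x).out
  let j : G → U := fun x => ((l x).out)⁻¹
  have ha : ∀ x, g⁻¹ * (((a x)⁻¹ * (f x).1 : U) : G) * g ∈ U := by
    intro x
    have h : (QuotientGroup.mk (a x) : U ⧸ k1 U g) = QuotientGroup.mk (f x).1 := Quotient.out_eq' (i x)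
    rw [QuotientGroup.eq, mem_k1] at h
    exact h
  have hj : ∀ x, g * (((f x).2 * (j x)⁻¹ : U) : G) * g⁻¹ ∈ U := by
    intro x
    have h : (QuotientGroup.mk ((l x).out) : U ⧸ k1 U g⁻¹) = QuotientGroup.mk ((f x).2)⁻¹ := Quotient.out_eq' (l x)
    rw [eq_comm, QuotientGroup.eq, mem_k1, inv_inv, inv_inv] at h
    have e : (j x)⁻¹ = (l x).out := inv_inv _
    rw [e]
    exact h
  let m : G → k1 U g⁻¹ := fun x => ⟨⟨g⁻¹ * (((a x)⁻¹ * (f x).1 : U) : G) * g, ha x⟩ * ((f x).2 * (j x)⁻¹), by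
    rw [mem_k1, inv_inv]
    have e : g * ((⟨g⁻¹ * (((a x)⁻¹ * (f x).1 : U) : G) * g, ha x⟩ * ((f x).2 * (j x)⁻¹) : U) : G) * g⁻¹ =
        (((a x)⁻¹ * (f x).1 : U) : G) * (g * (((f x).2 * (j x)⁻¹ : U) : G) * g⁻¹) := by
      rw [Subgroup.coe_mul U ⟨g⁻¹ * (((a x)⁻¹ * (f x).1 : U) : G) * g, ha x⟩]
      group
    rw [e]
    exact U.mul_mem ((a x)⁻¹ * (f x).1 : U).2 (hj x)⟩
  have hm : ∀ x, (∃ a b : U, x = a * g * b) → x = a x * g * (m x : U) * j x := by
    intro x hx
    have e := hf x hx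
    have e2 : ((m x : U) : G) = g⁻¹ * (((a x)⁻¹ * (f x).1 : U) : G) * g * (((f x).2 * (j x)⁻¹ : U) : G) := rfl
    rw [e2]
    push_cast
    rw [← mul_assoc, ← mul_assoc]
    conv_lhs => rw [e]
    group
  refine ⟨fun x => θ (m x, e1 (i x) + e2 (l x)), ?_⟩
  intro x y hx hy hxy h
  have h3 := θ.injective hxy
  rw [Prod.mk.injEq] at h3
  obtain ⟨h4, h5⟩ := h3
  have hfx := hf x hx
  have hfy := hf y hy
  have aux1 : ∀ (p q : U × U) (x y : G), x = p.1 * g * p.2 → y = q.1 * g * q.2 →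
      g⁻¹ * ((p.1⁻¹ * q.1 : U) : G) * g = p.2 * (x⁻¹ * y) * (q.2 : G)⁻¹ := by
    rintro p q x y rfl rfl
    push_cast
    group
  have aux2 : ∀ (p q : U × U) (x y : G), x = p.1 * g * p.2 → y = q.1 * g * q.2 →
      g * ((p.2 * q.2⁻¹ : U) : G) * g⁻¹ = (p.1 : G)⁻¹ * (x * y⁻¹) * (q.1 : G) := by
    rintro p q x y rfl rfl
    push_cast
    group
  have h6 : i x = i y ∧ l x = l y := by
    rcases h with h | h
    · have hi : i x = i y := by
        show (QuotientGroup.mk (f x).1 : U ⧸ k1 U g) = QuotientGroup.mk (f y).1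
        rw [QuotientGroup.eq, mem_k1]
        have e : g⁻¹ * (((f x).1⁻¹ * (f y).1 : U) : G) * g = (f x).2 * (x⁻¹ * y) * ((f y).2 : G)⁻¹ := by
          exact aux1 (f x) (f y) x y hfx hfy
        rw [e]
        exact U.mul_mem (U.mul_mem (f x).2.2 h) (U.inv_mem (f y).2.2)
      rw [hi] at h5
      exact ⟨hi, e2.injective (add_left_cancel h5)⟩
    · have hl : l x = l y := by
        show (QuotientGroup.mk ((f x).2)⁻¹ : U ⧸ k1 U g⁻¹) = QuotientGroup.mk ((f y).2)⁻¹
        rw [QuotientGroup.eq, mem_k1, inv_inv, inv_inv]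
        have e : g * (((f x).2 * ((f y).2)⁻¹ : U) : G) * g⁻¹ = ((f x).1 : G)⁻¹ * (x * y⁻¹) * ((f y).1 : G) := by
          exact aux2 (f x) (f y) x y hfx hfy
        rw [e]
        exact U.mul_mem (U.mul_mem (U.inv_mem (f x).1.2) h) (f y).1.2
      rw [hl] at h5
      exact ⟨e1.injective (add_right_cancel h5), hl⟩
  have h7 : a x = a y := by
    show (i x).out = (i y).out
    rw [h6.1]
  have h8 : j x = j y := by
    show ((l x).out)⁻¹ = ((l y).out)⁻¹
    rw [h6.2]
  rw [hm x hx, hm y hy, h4, h7, h8]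

theorem sg {G : Type u} [Group G] (U : Subgroup G) [Finite U] : ∃ κ : G → Fin (Nat.card U), ∀ g : G,
    Function.Bijective (fun s : U => κ (g * (s : G)⁻¹)) ∧ Function.Bijective (fun s : U => κ ((s : G)⁻¹ * g)) := by
  classical
  choose c hc using one_dc U
  let S : Setoid G := {
    r := fun x y => ∃ a b : U, y = a * x * b
    iseqv := {
      refl := fun x => ⟨1, 1, by simp⟩
      symm := by
        rintro x y ⟨a, b, rfl⟩
        exact ⟨a⁻¹, b⁻¹, by push_cast; group⟩
      trans := by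
        rintro x y z ⟨a, b, rfl⟩ ⟨a', b', rfl⟩
        exact ⟨a' * a, b * b', by push_cast; group⟩ } }
  let r : G → G := fun x => (Quotient.mk S x).out
  have hr : ∀ x : G, ∃ a b : U, x = a * r x * b := by
    intro x
    have h : Quotient.mk S (r x) = Quotient.mk S x := Quotient.out_eq _
    exact Quotient.exact h
  have hr2 : ∀ x : G, ∀ a b : U, r (a * x * b) = r x := by
    intro x a b
    have h : Quotient.mk S (a * x * b) = Quotient.mk S x := by
      apply Quotient.sound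
      exact ⟨a⁻¹, b⁻¹, by push_cast; group⟩
    show (Quotient.mk S (a * x * b)).out = (Quotient.mk S x).out
    rw [h]
  have hcard : Nat.card U = Nat.card (Fin (Nat.card U)) := by rw [Nat.card_fin]
  refine ⟨fun x => c (r x) x, fun g => ⟨?_, ?_⟩⟩
  · refine (Nat.bijective_iff_injective_and_card _).2 ⟨?_, hcard⟩
    intro s t hst
    simp only at hst
    have e1 : r (g * (s : G)⁻¹) = r g := by
      have h := hr2 g 1 s⁻¹
      simpa using h
    have e2 : r (g * (t : G)⁻¹) = r g := by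
      have h := hr2 g 1 t⁻¹
      simpa using h
    rw [e1, e2] at hst
    have h1 := hr (g * (s : G)⁻¹)
    have h2 := hr (g * (t : G)⁻¹)
    rw [e1] at h1
    rw [e2] at h2
    have h3 := hc (r g) _ _ h1 h2 hst (Or.inl (by
      have e : (g * (s : G)⁻¹)⁻¹ * (g * (t : G)⁻¹) = (s : G) * (t : G)⁻¹ := by group
      rw [e]
      exact U.mul_mem s.2 (U.inv_mem t.2)))
    exact Subtype.ext (inv_injective (mul_left_cancel h3))
  · refine (Nat.bijective_iff_injective_and_card _).2 ⟨?_, hcard⟩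
    intro s t hst
    simp only at hst
    have e1 : r ((s : G)⁻¹ * g) = r g := by
      have h := hr2 g s⁻¹ 1
      simpa using h
    have e2 : r ((t : G)⁻¹ * g) = r g := by
      have h := hr2 g t⁻¹ 1
      simpa using h
    rw [e1, e2] at hst
    have h1 := hr ((s : G)⁻¹ * g)
    have h2 := hr ((t : G)⁻¹ * g)
    rw [e1] at h1
    rw [e2] at h2
    have h3 := hc (r g) _ _ h1 h2 hst (Or.inr (by
      have e : ((s : G)⁻¹ * g) * ((t : G)⁻¹ * g)⁻¹ = (s : G)⁻¹ * (t : G) := by group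
      rw [e]
      exact U.mul_mem (U.inv_mem s.2) t.2))
    exact Subtype.ext (inv_injective (mul_right_cancel h3))

theorem loc_pc {G : Type u} [Group G] (h : ∀ F : Finset G, ∃ U : Subgroup G, Finite U ∧ (F : Set G) ⊆ U) : PC G := by
  apply pc_mk
  intro F
  obtain ⟨U, hU, hF⟩ := h F
  obtain ⟨κ, hκ⟩ := sg U
  exact ⟨U, hU, fun w => (w : G), Fin (Nat.card U), κ, fun f hf => ⟨⟨f, hF (Finset.mem_coe.2 hf)⟩, rfl⟩, hκ⟩

end Pool.Agent.H25.WP
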