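import Pool.Agent.H25.WP.Defs

/-!
[H25 WP RES]  Residual properties.

`res_pc`: if for every finite `F` there is a homomorphism `π : G → Q`, surjective, injective on `F`, with `PC Q`, then `PC G`.
Proof: `PC Q` for `π(F)` gives `S'`, `κ'`; choose `σ : S' → G` with `π (σ s') = s'` and `σ s'` in `F` if `s'` is in `π(F)`; `pc_mk` with
`I = S'`, `e = σ`, colours `κ' ∘ π`; for `f` in `F` the element `σ (π f)` of `F` has the same image as `f`, so it is `f`.
`fin_pc`: finite groups have `PC` (`pc_mk` with `I = G`, `κ = id`).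
`rf_pc`: residually finite groups have `PC`: for finite `F` the intersection `N` of finitely many normal subgroups of finite
index which separate the `f⁻¹ f'`, `f ≠ f'` in `F`, `π = QuotientGroup.mk' N`, `G / N` is finite.
-/

set_option autoImplicit false

namespace Pool.Agent.H25.WP

universe u

theorem res_pc {G : Type u} [Group G] (h : ∀ F : Finset G, ∃ (Q : Type u) (_ : Group Q) (π : G →* Q), PC Q ∧
    Function.Surjective π ∧ Set.InjOn π F) : PC G := by
  classical
  refine pc_mk.{u, u, 0} fun F => ?_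
  obtain ⟨Q, hQ, π, hPC, hsurj, hinj⟩ := h F
  obtain ⟨S, hFS, κ, hκ⟩ := hPC (F.image π)
  have hσ : ∀ s : Q, ∃ x : G, π x = s ∧ (s ∈ F.image π → x ∈ F) := by
    intro s
    by_cases hs : s ∈ F.image π
    · obtain ⟨f, hf, hfs⟩ := Finset.mem_image.mp hs
      exact ⟨f, hfs, fun _ => hf⟩
    · obtain ⟨x, hx⟩ := hsurj s
      exact ⟨x, hx, fun h' => absurd h' hs⟩
  choose σ hσ1 hσ2 using hσ
  refine ⟨{x // x ∈ S}, inferInstance, fun s => σ s, Fin S.card, fun g => κ (π g), ?_, ?_⟩
  · intro f hf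
    have h1 : π f ∈ F.image π := Finset.mem_image_of_mem _ hf
    refine ⟨⟨π f, hFS h1⟩, ?_⟩
    exact hinj (hσ2 (π f) h1) hf (hσ1 (π f))
  · intro g
    have h1 : (fun s : {x // x ∈ S} => κ (π (g * (σ s)⁻¹))) = fun s : {x // x ∈ S} => κ (π g * (s : Q)⁻¹) := by
      funext s
      rw [map_mul, map_inv, hσ1]
    have h2 : (fun s : {x // x ∈ S} => κ (π ((σ s)⁻¹ * g))) = fun s : {x // x ∈ S} => κ ((s : Q)⁻¹ * π g) := by
      funext s
      rw [map_mul, map_inv, hσ1]
    constructor
    · rw [h1]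
      exact (hκ (π g)).1
    · rw [h2]
      exact (hκ (π g)).2

theorem fin_pc (G : Type u) [Group G] [Finite G] : PC G := by
  refine pc_mk.{u, u, u} fun F => ?_
  refine ⟨G, inferInstance, fun x => x, G, fun x => x, fun f _ => ⟨f, rfl⟩, fun g => ⟨?_, ?_⟩⟩
  · exact ((Equiv.inv G).trans (Equiv.mulLeft g)).bijective
  · exact ((Equiv.inv G).trans (Equiv.mulRight g)).bijective

private theorem sep_fin {G : Type u} [Group G] [Group.ResiduallyFinite G] (A : Finset G) :
    ∃ N : Subgroup G, N.Normal ∧ N.FiniteIndex ∧ ∀ a ∈ A, a ≠ 1 → a ∉ N := by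
  classical
  induction A using Finset.induction_on with
  | empty => exact ⟨⊤, inferInstance, inferInstance, fun a ha => absurd ha (Finset.notMem_empty a)⟩
  | insert a A _ ih =>
    obtain ⟨N, hN1, hN2, hN3⟩ := ih
    by_cases ha : a = 1
    · refine ⟨N, hN1, hN2, ?_⟩
      intro b hb hb1
      rcases Finset.mem_insert.mp hb with h | h
      · exact absurd (h.trans ha) hb1
      · exact hN3 b h hb1
    · obtain ⟨H, hH⟩ := Group.exists_finiteIndexNormalSubgroup_notMem a ha
      have h1 : H.toSubgroup.Normal := H.isNormal'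
      have h2 : H.toSubgroup.FiniteIndex := H.isFiniteIndex'
      refine ⟨N ⊓ H.toSubgroup, inferInstance, inferInstance, ?_⟩
      intro b hb hb1 hbN
      rw [Subgroup.mem_inf] at hbN
      rcases Finset.mem_insert.mp hb with h | h
      · rw [h] at hbN
        exact hH hbN.2
      · exact hN3 b h hb1 hbN.1

theorem rf_pc (G : Type u) [Group G] [Group.ResiduallyFinite G] : PC G := by
  classical
  refine res_pc fun F => ?_
  obtain ⟨N, hN1, hN2, hN3⟩ := sep_fin ((F ×ˢ F).image fun p : G × G => p.1⁻¹ * p.2)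
  refine ⟨G ⧸ N, inferInstance, QuotientGroup.mk' N, fin_pc (G ⧸ N), QuotientGroup.mk'_surjective N, ?_⟩
  intro x hx y hy hxy
  by_contra hne
  have h1 : x⁻¹ * y ∈ N := QuotientGroup.eq.mp hxy
  refine hN3 (x⁻¹ * y) ?_ ?_ h1
  · exact Finset.mem_image.mpr ⟨(x, y), Finset.mem_product.mpr ⟨hx, hy⟩, rfl⟩
  · intro h2
    exact hne (eq_of_inv_mul_eq_one h2)

end Pool.Agent.H25.WP
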