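import Pool.Agent.H25.WP.Loc
import Pool.Agent.H47.CH.Loc

/-!
[H25 WP SYS]  Colourings and normal systems: the proof of `Pool.Agent.H47.CH.hasP_sys` for colourings instead of property P.

`Gc F N`: a finite family `e i` and a colouring of `G`, invariant under `N`, with the colours of `g (e i)⁻¹` and of `(e i)⁻¹ g` bijective
in `i`, such that each `f` in `F` agrees with some `e i` modulo `N`.
`step_fin'`: from `N` to `M ≤ N` with `M ≤ B ≤ N`, `B / M` finite, `B` normalised by the `e i`, `B` contains the differences: new colours = old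
colours and a colouring of `G / M` for the finite subgroup `B / M` (`sg`).
`sys_pc`: normal systems with locally `G`-(finite-by-polycyclic) factors.
-/

set_option autoImplicit false

namespace Pool.Agent.H25.WP

open Set Pool.Agent.H47.CH

universe u

/-- a coloured tile modulo `N` which catches `F` -/
def Gc {G : Type u} [Group G] (F : Set G) (N : Subgroup G) : Prop :=
  ∃ (I : Type u) (_ : Finite I) (e : I → G) (C : Type) (κ : G → C), (∀ x : G, ∀ n ∈ N, κ (x * n) = κ x) ∧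
    (∀ g : G, Function.Bijective (fun i => κ (g * (e i)⁻¹)) ∧ Function.Bijective (fun i => κ ((e i)⁻¹ * g))) ∧
    ∀ f ∈ F, ∃ i, (e i)⁻¹ * f ∈ N

private theorem sigbij {T U C V : Type*} {f : T → C} {g : T → U → V} (hf : Function.Bijective f)
    (hg : ∀ t, Function.Bijective (g t)) : Function.Bijective (fun p : T × U => (f p.1, g p.1 p.2)) := by
  constructor
  · rintro ⟨t, u⟩ ⟨t', u'⟩ h
    simp only [Prod.mk.injEq] at h
    have h1 : t = t' := hf.1 h.1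
    subst h1
    exact Prod.ext rfl ((hg t).1 h.2)
  · rintro ⟨c, v⟩
    obtain ⟨t, rfl⟩ := hf.2 c
    obtain ⟨u, rfl⟩ := (hg t).2 v
    exact ⟨(t, u), rfl⟩

private theorem inv_left {G : Type u} [Group G] {N : Subgroup G} (hN : N.Normal) {C : Type} {κ : G → C}
    (hκ : ∀ x : G, ∀ n ∈ N, κ (x * n) = κ x) : ∀ n ∈ N, ∀ x : G, κ (n * x) = κ x := by
  intro n hn x
  have h1 := hκ x (x⁻¹ * n * x) (by simpa using hN.conj_mem n hn x⁻¹)
  rwa [show x * (x⁻¹ * n * x) = n * x by group] at h1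

/-- the step with a finite section -/
theorem step_fin' {G : Type u} [Group G] {F : Set G} {M N : Subgroup G} (hM : M.Normal) (hN : N.Normal) (hMN : M ≤ N)
    {I : Type u} [Finite I] {e : I → G} {C : Type} {κ : G → C} (hκ : ∀ x : G, ∀ n ∈ N, κ (x * n) = κ x)
    (hb : ∀ g : G, Function.Bijective (fun i => κ (g * (e i)⁻¹)) ∧ Function.Bijective (fun i => κ ((e i)⁻¹ * g)))
    (hF : ∀ f ∈ F, ∃ i, (e i)⁻¹ * f ∈ N)
    {B : Subgroup G} (_hMB : M ≤ B) (hBN : B ≤ N) (hB : ((fun g : G => (g : G ⧸ M)) '' (B : Set G)).Finite)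
    (hSB : ∀ i, ∀ b ∈ B, e i * b * (e i)⁻¹ ∈ B) (hFB : ∀ f ∈ F, ∀ i, (e i)⁻¹ * f ∈ N → (e i)⁻¹ * f ∈ B) : Gc F M := by
  classical
  let π : G →* G ⧸ M := QuotientGroup.mk' M
  have kM : ∀ g : G, π g = 1 ↔ g ∈ M := fun g => QuotientGroup.eq_one_iff g
  have hκl := inv_left hN hκ
  have hH : ((B.map π : Subgroup (G ⧸ M)) : Set (G ⧸ M)).Finite := by
    rw [Subgroup.coe_map]
    exact hB
  have hfin : Finite (B.map π : Subgroup (G ⧸ M)) := hH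
  obtain ⟨ν, hν⟩ := sg (B.map π)
  have hρ : ∀ q : (B.map π : Subgroup (G ⧸ M)), ∃ b : G, b ∈ B ∧ π b = q := by
    rintro ⟨q, b, hb, hbq⟩
    exact ⟨b, hb, hbq⟩
  choose ρ hρ1 hρ2 using hρ
  refine ⟨I × (B.map π : Subgroup (G ⧸ M)), inferInstance, fun p => e p.1 * ρ p.2,
    C × Fin (Nat.card (B.map π : Subgroup (G ⧸ M))), fun g => (κ g, ν (π g)), ?_, ?_, ?_⟩
  · intro x m hm
    simp only
    rw [hκ x m (hMN hm), map_mul, (kM m).2 hm, mul_one]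
  · intro g
    constructor
    · -- left translates
      have h1 : ∀ p : I × (B.map π : Subgroup (G ⧸ M)), κ (g * (e p.1 * ρ p.2)⁻¹) = κ (g * (e p.1)⁻¹) := by
        intro p
        have h2 : g * (e p.1 * ρ p.2)⁻¹ = g * (e p.1)⁻¹ * (e p.1 * (ρ p.2)⁻¹ * (e p.1)⁻¹) := by group
        rw [h2]
        exact hκ _ _ (hN.conj_mem _ (N.inv_mem (hBN (hρ1 p.2))) _)
      have hc : ∀ (i : I) (h : (B.map π : Subgroup (G ⧸ M))), π (e i) * (h : G ⧸ M) * (π (e i))⁻¹ ∈ B.map π := by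
        rintro i ⟨h, b, hb', rfl⟩
        refine ⟨e i * b * (e i)⁻¹, hSB i b hb', ?_⟩
        rw [map_mul, map_mul, map_inv]
      have h3 : ∀ p : I × (B.map π : Subgroup (G ⧸ M)), ν (π (g * (e p.1 * ρ p.2)⁻¹)) =
          ν (π (g * (e p.1)⁻¹) * (((⟨_, hc p.1 p.2⟩ : (B.map π : Subgroup (G ⧸ M))) : G ⧸ M))⁻¹) := by
        intro p
        congr 1
        simp only [map_mul, map_inv, mul_inv_rev, hρ2, inv_inv]
        group
      have h4 : (fun p : I × (B.map π : Subgroup (G ⧸ M)) => ((κ (g * (e p.1 * ρ p.2)⁻¹), ν (π (g * (e p.1 * ρ p.2)⁻¹))) :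
          C × Fin (Nat.card (B.map π : Subgroup (G ⧸ M))))) = fun p => (κ (g * (e p.1)⁻¹),
          ν (π (g * (e p.1)⁻¹) * (((⟨_, hc p.1 p.2⟩ : (B.map π : Subgroup (G ⧸ M))) : G ⧸ M))⁻¹)) := by
        funext p
        rw [h1, h3]
      show Function.Bijective (fun p : I × (B.map π : Subgroup (G ⧸ M)) => ((κ (g * (e p.1 * ρ p.2)⁻¹),
        ν (π (g * (e p.1 * ρ p.2)⁻¹))) : C × Fin (Nat.card (B.map π : Subgroup (G ⧸ M)))))
      rw [h4]
      refine sigbij (f := fun i => κ (g * (e i)⁻¹)) (g := fun i (h : (B.map π : Subgroup (G ⧸ M))) =>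
        ν (π (g * (e i)⁻¹) * (((⟨_, hc i h⟩ : (B.map π : Subgroup (G ⧸ M))) : G ⧸ M))⁻¹)) (hb g).1 ?_
      intro i
      refine (hν (π (g * (e i)⁻¹))).1.comp ?_
      refine Finite.injective_iff_bijective.mp ?_
      intro h h' hh
      have h5 := congrArg Subtype.val hh
      simp only at h5
      exact Subtype.ext (mul_left_cancel (mul_right_cancel h5))
    · -- right translates
      have h1 : ∀ p : I × (B.map π : Subgroup (G ⧸ M)), κ ((e p.1 * ρ p.2)⁻¹ * g) = κ ((e p.1)⁻¹ * g) := by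
        intro p
        rw [mul_inv_rev, mul_assoc]
        exact hκl _ (N.inv_mem (hBN (hρ1 p.2))) _
      have h3 : ∀ p : I × (B.map π : Subgroup (G ⧸ M)), ν (π ((e p.1 * ρ p.2)⁻¹ * g)) =
          ν ((p.2 : G ⧸ M)⁻¹ * π ((e p.1)⁻¹ * g)) := by
        intro p
        congr 1
        simp only [map_mul, map_inv, mul_inv_rev, hρ2, mul_assoc]
      have h4 : (fun p : I × (B.map π : Subgroup (G ⧸ M)) => ((κ ((e p.1 * ρ p.2)⁻¹ * g), ν (π ((e p.1 * ρ p.2)⁻¹ * g))) :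
          C × Fin (Nat.card (B.map π : Subgroup (G ⧸ M))))) = fun p => (κ ((e p.1)⁻¹ * g),
          ν ((p.2 : G ⧸ M)⁻¹ * π ((e p.1)⁻¹ * g))) := by
        funext p
        rw [h1, h3]
      show Function.Bijective (fun p : I × (B.map π : Subgroup (G ⧸ M)) => ((κ ((e p.1 * ρ p.2)⁻¹ * g),
        ν (π ((e p.1 * ρ p.2)⁻¹ * g))) : C × Fin (Nat.card (B.map π : Subgroup (G ⧸ M)))))
      rw [h4]
      exact sigbij (f := fun i => κ ((e i)⁻¹ * g)) (g := fun i (h : (B.map π : Subgroup (G ⧸ M))) =>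
        ν ((h : G ⧸ M)⁻¹ * π ((e i)⁻¹ * g))) (hb g).2 (fun i => (hν _).2)
  · intro f hf
    obtain ⟨i, hi⟩ := hF f hf
    have h1 := hFB f hf i hi
    have hh : π ((e i)⁻¹ * f) ∈ B.map π := ⟨_, h1, rfl⟩
    refine ⟨(i, ⟨_, hh⟩), ?_⟩
    show (e i * ρ ⟨_, hh⟩)⁻¹ * f ∈ M
    rw [← kM, mul_inv_rev, mul_assoc, map_mul, map_inv, hρ2, inv_mul_cancel]

/-- one may take the representatives in `F` -/
theorem reps' {G : Type u} [Group G] {F : Set G} {N : Subgroup G} (hN : N.Normal) (h : Gc F N) :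
    ∃ (I : Type u) (_ : Finite I) (e : I → G) (C : Type) (κ : G → C), (∀ x : G, ∀ n ∈ N, κ (x * n) = κ x) ∧
    (∀ g : G, Function.Bijective (fun i => κ (g * (e i)⁻¹)) ∧ Function.Bijective (fun i => κ ((e i)⁻¹ * g))) ∧
    (∀ f ∈ F, ∃ i, (e i)⁻¹ * f ∈ N) ∧ ∀ f ∈ F, ∀ i, (e i)⁻¹ * f ∈ N → e i ∈ F := by
  classical
  obtain ⟨I, hI, e, C, κ, hκ, hb, hF⟩ := h
  have hσ : ∀ s : G, ∃ t : G, s⁻¹ * t ∈ N ∧ ((∃ f ∈ F, s⁻¹ * f ∈ N) → t ∈ F) := by
    intro s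
    by_cases hs : ∃ f ∈ F, s⁻¹ * f ∈ N
    · obtain ⟨f, hf, hfs⟩ := hs
      exact ⟨f, hfs, fun _ => hf⟩
    · exact ⟨s, by rw [inv_mul_cancel]; exact N.one_mem, fun h => absurd h hs⟩
  choose σ hσ1 hσ2 using hσ
  have hκl := inv_left hN hκ
  have hr : ∀ g s : G, κ (g * (σ s)⁻¹) = κ (g * s⁻¹) := by
    intro g s
    have h2 : σ s * s⁻¹ ∈ N := by
      have := hN.conj_mem _ (hσ1 s) s
      rwa [show s * (s⁻¹ * σ s) * s⁻¹ = σ s * s⁻¹ by group] at this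
    have h3 := hκ (g * (σ s)⁻¹) _ h2
    rw [show g * (σ s)⁻¹ * (σ s * s⁻¹) = g * s⁻¹ by group] at h3
    exact h3.symm
  have hl : ∀ g s : G, κ ((σ s)⁻¹ * g) = κ (s⁻¹ * g) := by
    intro g s
    have h3 := hκl _ (hσ1 s) ((σ s)⁻¹ * g)
    rw [show s⁻¹ * σ s * ((σ s)⁻¹ * g) = s⁻¹ * g by group] at h3
    exact h3.symm
  refine ⟨I, hI, fun i => σ (e i), C, κ, hκ, ?_, ?_, ?_⟩
  · intro g
    simp only [hr, hl]
    exact hb g
  · intro f hf
    obtain ⟨i, hi⟩ := hF f hf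
    refine ⟨i, ?_⟩
    have := N.mul_mem (N.inv_mem (hσ1 (e i))) hi
    rwa [show ((e i)⁻¹ * σ (e i))⁻¹ * ((e i)⁻¹ * f) = (σ (e i))⁻¹ * f by group] at this
  · intro f hf i h1
    refine hσ2 (e i) ⟨f, hf, ?_⟩
    have := N.mul_mem (hσ1 (e i)) h1
    rwa [show (e i)⁻¹ * σ (e i) * ((σ (e i))⁻¹ * f) = (e i)⁻¹ * f by group] at this

/-- the step -/
theorem step' {G : Type u} [Group G] {F : Set G} (hFf : F.Finite) {M N : Subgroup G} (hM : M.Normal) (hN : N.Normal) (hMN : M ≤ N)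
    (h : Gc F N) (hs : LocFin M N ∨ ∀ f ∈ F, ∀ f' ∈ F, f⁻¹ * f' ∈ N → f⁻¹ * f' ∈ M) : Gc F M := by
  classical
  rcases hs with hs | hs
  · obtain ⟨I, hI, e, C, κ, hκ, hb, hF⟩ := h
    obtain ⟨B, h1, h2, h3, h4, h5⟩ := hs ((fun p : G × G => p.1⁻¹ * p.2) '' (range e ×ˢ F) ∩ N) (range e)
      ((((Set.finite_range e).prod hFf).image _).inter_of_left _) (Set.finite_range e) inter_subset_right
    exact step_fin' hM hN hMN hκ hb hF h1 h2 h4 (fun i b hb => h5 _ (mem_range_self i) b hb)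
      fun f hf i hsf => h3 ⟨⟨(e i, f), ⟨mem_range_self i, hf⟩, rfl⟩, hsf⟩
  · obtain ⟨I, hI, e, C, κ, hκ, hb, hF, hr⟩ := reps' hN h
    refine step_fin' hM hN hMN hκ hb hF (B := M) le_rfl hMN ?_ (fun i b hb => hM.conj_mem b hb _) ?_
    · refine (Set.finite_singleton ((1 : G) : G ⧸ M)).subset ?_
      rintro _ ⟨m, hm, rfl⟩
      exact (QuotientGroup.eq_one_iff m).2 hm
    · intro f hf i h1
      exact hs _ (hr f hf i h1) f hf h1

/-- the finite chain -/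
theorem chain_fin' {G : Type u} [Group G] {F : Set G} (hFf : F.Finite) {C : Set (Subgroup G)} (hC : C.Finite)
    (hCn : ∀ c ∈ C, c.Normal) (hch : IsChain (· ≤ ·) C) {N₀ : Subgroup G} (hN₀ : N₀ ∈ C)
    (h : ∀ f ∈ F, ∀ f' ∈ F, f ≠ f' → f⁻¹ * f' ∈ N₀ → ∃ M ∈ C, ∃ N ∈ C, M ≤ N ∧ N ≤ N₀ ∧ f⁻¹ * f' ∈ N ∧ f⁻¹ * f' ∉ M ∧
      LocFin M N) (hG : Gc F N₀) : Gc F ⊥ := by
  classical
  let C₀ : Set (Subgroup G) := insert ⊥ {c ∈ C | c ≤ N₀}
  have hC₀ : C₀.Finite := (hC.subset (sep_subset _ _)).insert _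
  have hn₀ : ∀ c ∈ C₀, c.Normal := by
    rintro c (rfl | hc)
    · exact inferInstance
    · exact hCn c hc.1
  have hcmp : ∀ c ∈ C₀, ∀ d ∈ C₀, c ≤ d ∨ d ≤ c := by
    rintro c (rfl | hc) d hd
    · exact Or.inl bot_le
    · rcases hd with rfl | hd
      · exact Or.inr bot_le
      · exact hch.total hc.1 hd.1
  have hA : {c ∈ C₀ | Gc F c}.Nonempty := ⟨N₀, Or.inr ⟨hN₀, le_rfl⟩, hG⟩
  obtain ⟨c, ⟨hcC, hcG⟩, hcm⟩ := (hC₀.subset (sep_subset C₀ (Gc F))).exists_minimalFor id _ hA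
  by_cases hcb : c = ⊥
  · rw [← hcb]
    exact hcG
  exfalso
  have hD : {d ∈ C₀ | d < c}.Nonempty := ⟨⊥, Or.inl rfl, bot_lt_iff_ne_bot.2 hcb⟩
  obtain ⟨d, ⟨hdC, hdc⟩, hdm⟩ := (hC₀.subset (sep_subset C₀ (· < c))).exists_maximalFor id _ hD
  have hcN : c ≤ N₀ := by
    rcases hcC with rfl | hc
    · exact absurd rfl hcb
    · exact hc.2
  have hlt : ∀ e ∈ C₀, e < c → e ≤ d := by
    intro e he hec
    rcases hcmp e he d hdC with h1 | h1
    · exact h1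
    · exact hdm ⟨he, hec⟩ h1
  have hstep : Gc F d := by
    refine step' hFf (hn₀ d hdC) (hn₀ c hcC) hdc.le hcG ?_
    by_cases hall : ∀ f ∈ F, ∀ f' ∈ F, f⁻¹ * f' ∈ c → f⁻¹ * f' ∈ d
    · exact Or.inr hall
    left
    push Not at hall
    obtain ⟨f, hf, f', hf', h1, h2⟩ := hall
    have hne : f ≠ f' := by
      rintro rfl
      exact h2 (by rw [inv_mul_cancel]; exact d.one_mem)
    obtain ⟨M, hMC, N, hNC, hMN, hNN, h3, h4, h5⟩ := h f hf f' hf' hne (hcN h1)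
    have hN' : N ∈ C₀ := Or.inr ⟨hNC, hNN⟩
    have hM' : M ∈ C₀ := Or.inr ⟨hMC, hMN.trans hNN⟩
    have hcN' : c ≤ N := by
      rcases hcmp c hcC N hN' with h6 | h6
      · exact h6
      · rcases eq_or_lt_of_le h6 with h7 | h7
        · exact h7.symm.le
        · exact absurd (hlt N hN' h7 h3) h2
    have hMd : M ≤ d := by
      refine hlt M hM' (lt_of_le_of_ne ?_ fun h6 => h4 (by rw [h6]; exact h1))
      rcases hcmp c hcC M hM' with h6 | h6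
      · exact absurd (h6 h1) h4
      · exact h6
    exact locfin_sub (hn₀ d hdC) (hn₀ c hcC) hMd hdc.le hcN' h5
  exact absurd (hcm ⟨hdC, hstep⟩ hdc.le) (not_le_of_gt hdc)

theorem gc_of_pc {G : Type u} [Group G] {F : Set G} (hF : F.Finite) {N : Subgroup G} (hN : N.Normal)
    (h : PC (G ⧸ N)) : Gc F N := by
  classical
  obtain ⟨S, hS, κ, hκ⟩ := h (hF.toFinset.image (fun g : G => (g : G ⧸ N)))
  have ho : ∀ q : G ⧸ N, ((q.out : G) : G ⧸ N) = q := fun q => Quotient.out_eq' q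
  refine ⟨{x // x ∈ S}, inferInstance, fun s => (s : G ⧸ N).out, Fin S.card, fun g => κ (g : G ⧸ N), ?_, ?_, ?_⟩
  · intro x n hn
    simp only
    rw [show ((x * n : G) : G ⧸ N) = (x : G ⧸ N) from (QuotientGroup.eq.2 (by simpa using hn)).symm]
  · intro g
    simp only [QuotientGroup.mk_mul, QuotientGroup.mk_inv, ho]
    exact hκ (g : G ⧸ N)
  · intro f hf
    refine ⟨⟨(f : G ⧸ N), hS (Finset.mem_image_of_mem _ (hF.mem_toFinset.mpr hf))⟩, ?_⟩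
    rw [← QuotientGroup.eq]
    exact ho _

theorem gc_of_fin {G : Type u} [Group G] {F : Set G} {N B : Subgroup G} (hN : N.Normal) (h1 : N ≤ B)
    (h2 : ((fun g : G => (g : G ⧸ N)) '' (B : Set G)).Finite) (h3 : F ⊆ B) : Gc F N := by
  refine step_fin' (I := PUnit.{u+1}) (e := fun _ => 1) (C := Unit) (κ := fun _ => ()) (N := ⊤) (B := B) hN inferInstance le_top
    (fun _ _ _ => rfl) (fun _ => ⟨⟨fun _ _ _ => rfl, fun _ => ⟨PUnit.unit, rfl⟩⟩, ⟨fun _ _ _ => rfl, fun _ => ⟨PUnit.unit, rfl⟩⟩⟩)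
    (fun _ _ => ⟨PUnit.unit, Subgroup.mem_top _⟩) h1 le_top h2 ?_ ?_
  · intro i b hb
    simpa using hb
  · intro f hf i _
    simpa using h3 hf

/-- normal systems -/
theorem sys_pc {G : Type u} [Group G] (h : ∀ F : Finset G, ∃ (C : Set (Subgroup G)) (N₀ : Subgroup G) (_ : N₀.Normal),
    (∀ c ∈ C, c.Normal) ∧ IsChain (· ≤ ·) C ∧ N₀ ∈ C ∧
    (PC (G ⧸ N₀) ∨ ∃ U : Subgroup (G ⧸ N₀), Finite U ∧ ∀ f ∈ F, (f : G ⧸ N₀) ∈ U) ∧
    ∀ f ∈ F, ∀ f' ∈ F, f ≠ f' → f⁻¹ * f' ∈ N₀ → ∃ (M N : Subgroup G) (_ : M.Normal), M ∈ C ∧ N ∈ C ∧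
      f⁻¹ * f' ∈ N ∧ f⁻¹ * f' ∉ M ∧ LocFbP M N) : PC G := by
  classical
  refine pc_mk fun F => ?_
  obtain ⟨C, N₀, hn, hCn, hch, hN₀, hG', h⟩ := h F
  have hF : (F : Set G).Finite := F.finite_toSet
  have hG : Gc (F : Set G) N₀ := by
    rcases hG' with h4 | ⟨H, hH, hFH⟩
    · exact gc_of_pc hF hn h4
    · refine gc_of_fin (B := H.comap (QuotientGroup.mk' N₀)) hn ?_ ?_ ?_
      · intro x hx
        show ((x : G) : G ⧸ N₀) ∈ H
        rw [(QuotientGroup.eq_one_iff x).2 hx]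
        exact H.one_mem
      · have hH' : (H : Set (G ⧸ N₀)).Finite := hH
        refine hH'.subset ?_
        rintro _ ⟨x, hx, rfl⟩
        exact hx
      · intro f hf
        exact hFH f hf
  obtain ⟨C', h1, h2, h3, h4⟩ := exists_chief hCn hch
  -- the chief factors
  have hchief : ∀ f ∈ F, ∀ f' ∈ F, f ≠ f' → f⁻¹ * f' ∈ N₀ → ∃ M ∈ C', ∃ N ∈ C', M ≤ N ∧ N ≤ N₀ ∧ f⁻¹ * f' ∈ N ∧
      f⁻¹ * f' ∉ M ∧ LocFin M N := by
    intro f hf f' hf' hne hm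
    obtain ⟨M, N, hM, hMC, hNC, hgN, hgM, hloc⟩ := h f hf f' hf' hne hm
    obtain ⟨M', hM', N', hN', h5, h6, h7, h8, h9, h10⟩ := h4 (f⁻¹ * f') (by rwa [Ne, inv_mul_eq_one])
    refine ⟨M', hM', N', hN', h5, h8 N₀ (h1 hN₀) hm, h6, h7, ?_⟩
    have hMn : M'.Normal := h2 M' hM'
    have hle : M ≤ M' := h9 M (h1 hMC) hgM
    have hle' : N' ≤ N := h8 N (h1 hNC) hgN
    refine chief hMn (h2 N' hN') h5 h10 h6 h7 fun K hK e he heK => ?_
    have h11 := hloc K hK e (hle' he) heK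
    let q : (G ⧸ M) →* (G ⧸ M') := QuotientGroup.map M M' (MonoidHom.id G) (by simpa using hle)
    have hq : (nc K e).map (QuotientGroup.mk' M') = ((nc K e).map (QuotientGroup.mk' M)).map q := by
      rw [Subgroup.map_map]
      congr 1
    rw [hq]
    exact fbp_surj (q.subgroupMap _) (q.subgroupMap_surjective _) h11
  -- a finite part of the chain
  have hc : ∀ p : G × G, ∃ M N : Subgroup G, M ∈ C' ∧ N ∈ C' ∧ (p.1 ∈ F → p.2 ∈ F → p.1 ≠ p.2 → p.1⁻¹ * p.2 ∈ N₀ →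
      M ≤ N ∧ N ≤ N₀ ∧ p.1⁻¹ * p.2 ∈ N ∧ p.1⁻¹ * p.2 ∉ M ∧ LocFin M N) := by
    intro p
    by_cases hp : p.1 ∈ F ∧ p.2 ∈ F ∧ p.1 ≠ p.2 ∧ p.1⁻¹ * p.2 ∈ N₀
    · obtain ⟨M, hM, N, hN, h1⟩ := hchief p.1 hp.1 p.2 hp.2.1 hp.2.2.1 hp.2.2.2
      exact ⟨M, N, hM, hN, fun _ _ _ _ => h1⟩
    · exact ⟨N₀, N₀, h1 hN₀, h1 hN₀, fun h1 h2 h3 h4 => absurd ⟨h1, h2, h3, h4⟩ hp⟩
  choose α β hα hβ hαβ using hc
  let C₂ : Set (Subgroup G) := insert N₀ (α '' ((F : Set G) ×ˢ (F : Set G)) ∪ β '' ((F : Set G) ×ˢ (F : Set G)))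
  have hC₂ : C₂ ⊆ C' := by
    rintro c (rfl | ⟨p, -, rfl⟩ | ⟨p, -, rfl⟩)
    exacts [h1 hN₀, hα p, hβ p]
  have hfin : C₂.Finite := (((hF.prod hF).image α).union ((hF.prod hF).image β)).insert _
  have hG2 : Gc (F : Set G) ⊥ := by
    refine chain_fin' hF hfin (fun c hc => h2 c (hC₂ hc)) (h3.mono hC₂) (mem_insert _ _) ?_ hG
    intro f hf f' hf' hne hm
    obtain ⟨e1, e2, e3, e4, e5⟩ := hαβ (f, f') hf hf' hne hm
    exact ⟨α (f, f'), Or.inr (Or.inl ⟨(f, f'), ⟨hf, hf'⟩, rfl⟩), β (f, f'), Or.inr (Or.inr ⟨(f, f'), ⟨hf, hf'⟩, rfl⟩),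
      e1, e2, e3, e4, e5⟩
  obtain ⟨I, hI, e, D, κ, -, hb, hFS⟩ := hG2
  refine ⟨I, hI, e, D, κ, ?_, hb⟩
  intro f hf
  obtain ⟨i, hi⟩ := hFS f hf
  rw [Subgroup.mem_bot, inv_mul_eq_one] at hi
  exact ⟨i, hi⟩

end Pool.Agent.H25.WP
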