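import Pool.Agent.H25.WP.Wr
import Pool.Agent.H25.WP.Loc
import Pool.Agent.H25.WP.Res
import Pool.Agent.H25.WP.Sys

/-!
[H25 WP MAIN]  Colourings: direct products, isomorphic groups.
-/

set_option autoImplicit false

namespace Pool.Agent.H25.WP

universe u v

theorem prod_pc {A : Type u} {B : Type v} [Group A] [Group B] (hA : PC A) (hB : PC B) : PC (A × B) := by
  classical
  refine pc_mk (fun F => ?_)
  obtain ⟨S, hS, κ, hκ⟩ := hA (F.image Prod.fst)
  obtain ⟨T, hT, μ, hμ⟩ := hB (F.image Prod.snd)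
  refine ⟨{x // x ∈ S} × {x // x ∈ T}, inferInstance, fun p => (p.1, p.2), Fin S.card × Fin T.card,
    fun g => (κ g.1, μ g.2), ?_, ?_⟩
  · intro f hf
    exact ⟨(⟨f.1, hS (Finset.mem_image_of_mem _ hf)⟩, ⟨f.2, hT (Finset.mem_image_of_mem _ hf)⟩), rfl⟩
  · intro g
    exact ⟨(hκ g.1).1.prodMap (hμ g.2).1, (hκ g.1).2.prodMap (hμ g.2).2⟩

theorem iso_pc {A : Type u} {B : Type u} [Group A] [Group B] (e : A ≃* B) (hA : PC A) : PC B := by
  classical
  refine pc_mk (fun F => ?_)
  obtain ⟨S, hS, κ, hκ⟩ := hA (F.image e.symm)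
  refine ⟨{x // x ∈ S}, inferInstance, fun s => e s, Fin S.card, fun g => κ (e.symm g), ?_, ?_⟩
  · intro f hf
    exact ⟨⟨e.symm f, hS (Finset.mem_image_of_mem _ hf)⟩, by simp⟩
  · intro g
    have h1 : (fun s : {x // x ∈ S} => κ (e.symm (g * (e s)⁻¹))) = fun s : {x // x ∈ S} => κ (e.symm g * (s : A)⁻¹) := by
      funext s
      simp
    have h2 : (fun s : {x // x ∈ S} => κ (e.symm ((e s)⁻¹ * g))) = fun s : {x // x ∈ S} => κ ((s : A)⁻¹ * e.symm g) := by
      funext s
      simp
    constructor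
    · rw [h1]
      exact (hκ (e.symm g)).1
    · rw [h2]
      exact (hκ (e.symm g)).2

/-- `H` acts on the group `Q` by left multiplication through a homomorphism -/
theorem win_hom {H : Type u} {Q : Type v} [Group H] [Group Q] (hQ : PC Q) (π : H →* Q) :
    @Win H Q _ (MulAction.compHom Q π) := by
  intro F
  obtain ⟨W, hW, lam, hl⟩ := win_reg hQ F
  exact ⟨W, hW, lam, fun h => hl (π h)⟩

/-- residually finite, or every finite subset lies in a finite subgroup -/
theorem rf_or_lf {G : Type u} [Group G] (h : Group.ResiduallyFinite G ∨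
    ∀ F : Finset G, ∃ U : Subgroup G, Finite U ∧ (F : Set G) ⊆ U) : PC G := by
  rcases h with h | h
  · exact rf_pc G
  · exact loc_pc h

end Pool.Agent.H25.WP
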