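import Pool.Agent.H25.WP.Defs

/-!
[H25 WP SEC]  Colourings and finite normal sections.

`sec_pc`: if for every finite `F` there are normal subgroups `M ≤ A ≤ N` of `G` with `A / M` finite such that elements of `F` which agree
modulo `M` are equal, elements of `F` which agree modulo `N` agree modulo `A`, and `G / N` has colourings, then `G` has colourings.
Proof: `S'`, `κ'` for the image of `F` in `G / N`; `S` = all `σ(s') a_c`, `c` in `A / M`; colour of `g`: `κ'` of its image and the class in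
`A / M` of `r⁻¹ g`, `r` the representative of `g A`.
-/

set_option autoImplicit false

namespace Pool.Agent.H25.WP

universe u

/-- a colouring of `G` by the classes of `A / M`, `M ≤ A` -/
private theorem nu {G : Type u} [Group G] (M A : Subgroup G) :
    ∃ ν : G → A ⧸ M.subgroupOf A, ∀ x y : G, x⁻¹ * y ∈ A → ν x = ν y → x⁻¹ * y ∈ M := by
  classical
  have hr : ∀ x : G, (QuotientGroup.mk x : G ⧸ A).out⁻¹ * x ∈ A := by
    intro x
    have h : (QuotientGroup.mk ((QuotientGroup.mk x : G ⧸ A).out) : G ⧸ A) = QuotientGroup.mk x := Quotient.out_eq' _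
    exact QuotientGroup.eq.mp h
  refine ⟨fun x => QuotientGroup.mk ⟨(QuotientGroup.mk x : G ⧸ A).out⁻¹ * x, hr x⟩, ?_⟩
  intro x y hxy h
  have h1 : (QuotientGroup.mk x : G ⧸ A) = QuotientGroup.mk y := QuotientGroup.eq.mpr hxy
  rw [QuotientGroup.eq, Subgroup.mem_subgroupOf] at h
  have h2 : (((⟨(QuotientGroup.mk x : G ⧸ A).out⁻¹ * x, hr x⟩ : A)⁻¹ *
      ⟨(QuotientGroup.mk y : G ⧸ A).out⁻¹ * y, hr y⟩ : A) : G) = x⁻¹ * y := by
    show ((QuotientGroup.mk x : G ⧸ A).out⁻¹ * x)⁻¹ * ((QuotientGroup.mk y : G ⧸ A).out⁻¹ * y) = x⁻¹ * y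
    rw [h1]
    group
  rw [h2] at h
  exact h

theorem sec_pc {G : Type u} [Group G] (h : ∀ F : Finset G, ∃ (M A N : Subgroup G) (_ : M.Normal) (_ : A.Normal)
    (_ : N.Normal), M ≤ A ∧ A ≤ N ∧ Finite (A ⧸ M.subgroupOf A) ∧ (∀ f ∈ F, ∀ f' ∈ F, f⁻¹ * f' ∈ M → f = f') ∧
    (∀ f ∈ F, ∀ f' ∈ F, f⁻¹ * f' ∈ N → f⁻¹ * f' ∈ A) ∧ PC (G ⧸ N)) : PC G := by
  classical
  refine pc_mk fun F => ?_
  obtain ⟨M, A, N, hM, hA, hN, hMA, hAN, hfin, hFM, hFA, hPC⟩ := h F
  obtain ⟨S, hFS, κ, hκ⟩ := hPC (F.image (QuotientGroup.mk' N))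
  obtain ⟨ν, hν⟩ := nu M A
  have hσ : ∀ s : G ⧸ N, ∃ x : G, QuotientGroup.mk' N x = s ∧ (s ∈ F.image (QuotientGroup.mk' N) → x ∈ F) := by
    intro s
    by_cases hs : s ∈ F.image (QuotientGroup.mk' N)
    · obtain ⟨f, hf, hfs⟩ := Finset.mem_image.mp hs
      exact ⟨f, hfs, fun _ => hf⟩
    · obtain ⟨x, hx⟩ := QuotientGroup.mk'_surjective N s
      exact ⟨x, hx, fun h' => absurd h' hs⟩
  choose σ hσ1 hσ2 using hσ
  -- the elements of `S`
  have he : ∀ (s : G ⧸ N) (c : A ⧸ M.subgroupOf A), ∃ a : A, QuotientGroup.mk a = c ∧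
      ∀ f ∈ F, ∀ b : A, f = σ s * b → QuotientGroup.mk b = c → σ s ∈ F → f = σ s * a := by
    intro s c
    by_cases hc : ∃ f ∈ F, ∃ b : A, f = σ s * b ∧ QuotientGroup.mk b = c
    · obtain ⟨f, hf, b, hfb, hbc⟩ := hc
      refine ⟨b, hbc, ?_⟩
      intro f' hf' b' hfb' hbc' _
      rw [← hfb]
      apply hFM f' hf' f hf
      have h1 : (QuotientGroup.mk b' : A ⧸ M.subgroupOf A) = QuotientGroup.mk b := by rw [hbc, hbc']
      rw [QuotientGroup.eq, Subgroup.mem_subgroupOf] at h1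
      have h2 : f'⁻¹ * f = ((b'⁻¹ * b : A) : G) := by
        rw [hfb, hfb']
        push_cast
        group
      rw [h2]
      exact h1
    · obtain ⟨a, ha⟩ := QuotientGroup.mk_surjective c
      exact ⟨a, ha, fun f hf b hfb hbc _ => absurd ⟨f, hf, b, hfb, hbc⟩ hc⟩
  choose a ha1 ha2 using he
  have hmk : ∀ (s : G ⧸ N) (c : A ⧸ M.subgroupOf A), QuotientGroup.mk' N (σ s * a s c) = s := by
    intro s c
    rw [map_mul, hσ1]
    have h1 : QuotientGroup.mk' N ((a s c : A) : G) = 1 := by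
      rw [← MonoidHom.mem_ker, QuotientGroup.ker_mk']
      exact hAN (a s c).2
    rw [h1, mul_one]
  have hcard : Nat.card ({x // x ∈ S} × (A ⧸ M.subgroupOf A)) = Nat.card (Fin S.card × (A ⧸ M.subgroupOf A)) := by
    rw [Nat.card_prod, Nat.card_prod, Nat.card_fin, Nat.card_eq_fintype_card, Fintype.card_coe]
  refine ⟨{x // x ∈ S} × (A ⧸ M.subgroupOf A), inferInstance, fun p => σ p.1 * a p.1 p.2,
    Fin S.card × (A ⧸ M.subgroupOf A), fun g => (κ (QuotientGroup.mk' N g), ν g), ?_, ?_⟩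
  · intro f hf
    have h1 : QuotientGroup.mk' N f ∈ F.image (QuotientGroup.mk' N) := Finset.mem_image_of_mem _ hf
    have h2 : (σ (QuotientGroup.mk' N f))⁻¹ * f ∈ A := by
      apply hFA _ (hσ2 _ h1) f hf
      have h3 : (QuotientGroup.mk (σ (QuotientGroup.mk' N f)) : G ⧸ N) = QuotientGroup.mk f := hσ1 _
      exact QuotientGroup.eq.mp h3
    refine ⟨(⟨_, hFS h1⟩, QuotientGroup.mk ⟨_, h2⟩), ?_⟩
    exact (ha2 (QuotientGroup.mk' N f) (QuotientGroup.mk ⟨_, h2⟩) f hf ⟨_, h2⟩ (by simp) rfl (hσ2 _ h1)).symm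
  · intro g
    constructor
    · refine (Nat.bijective_iff_injective_and_card _).2 ⟨?_, hcard⟩
      rintro ⟨s, c⟩ ⟨t, d⟩ hst
      simp only [Prod.mk.injEq] at hst
      obtain ⟨h1, h2⟩ := hst
      rw [map_mul, map_inv, hmk, map_mul, map_inv, hmk] at h1
      have h3 : s = t := (hκ (QuotientGroup.mk' N g)).1.1 h1
      subst h3
      have h4 : (g * (σ s * (a s c : G))⁻¹)⁻¹ * (g * (σ s * (a s d : G))⁻¹) =
          σ s * ((a s c * (a s d)⁻¹ : A) : G) * (σ s)⁻¹ := by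
        push_cast
        group
      have h5 := hν _ _ (by rw [h4]; exact hA.conj_mem _ (a s c * (a s d)⁻¹ : A).2 _) h2
      rw [h4] at h5
      have h6 := hM.conj_mem _ h5 (σ s)⁻¹
      have h7 : (σ s)⁻¹ * ((σ s : G) * ((a s c * (a s d)⁻¹ : A) : G) * (σ s : G)⁻¹) * ((σ s)⁻¹)⁻¹ =
          ((a s c * (a s d)⁻¹ : A) : G) := by group
      rw [h7] at h6
      have h8 := hM.conj_mem _ h6 ((a s d : A) : G)⁻¹
      have h9 : ((a s d : A) : G)⁻¹ * ((a s c * (a s d)⁻¹ : A) : G) * (((a s d : A) : G)⁻¹)⁻¹ =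
          (((a s d)⁻¹ * (a s c) : A) : G) := by
        push_cast
        group
      rw [h9] at h8
      have h10 : (QuotientGroup.mk (a s d) : A ⧸ M.subgroupOf A) = QuotientGroup.mk (a s c) := by
        rw [QuotientGroup.eq, Subgroup.mem_subgroupOf]
        exact h8
      rw [ha1, ha1] at h10
      rw [h10]
    · refine (Nat.bijective_iff_injective_and_card _).2 ⟨?_, hcard⟩
      rintro ⟨s, c⟩ ⟨t, d⟩ hst
      simp only [Prod.mk.injEq] at hst
      obtain ⟨h1, h2⟩ := hst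
      rw [map_mul, map_inv, hmk, map_mul, map_inv, hmk] at h1
      have h3 : s = t := (hκ (QuotientGroup.mk' N g)).2.1 h1
      subst h3
      have h4 : ((σ s * (a s c : G))⁻¹ * g)⁻¹ * ((σ s * (a s d : G))⁻¹ * g) =
          (g⁻¹ * σ s) * ((a s c * (a s d)⁻¹ : A) : G) * (g⁻¹ * σ s)⁻¹ := by
        push_cast
        group
      have h5 := hν _ _ (by rw [h4]; exact hA.conj_mem _ (a s c * (a s d)⁻¹ : A).2 _) h2
      rw [h4] at h5
      have h6 := hM.conj_mem _ h5 (g⁻¹ * σ s)⁻¹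
      have h7 : (g⁻¹ * σ s)⁻¹ * ((g⁻¹ * σ s : G) * ((a s c * (a s d)⁻¹ : A) : G) * (g⁻¹ * σ s : G)⁻¹) *
          ((g⁻¹ * σ s)⁻¹)⁻¹ = ((a s c * (a s d)⁻¹ : A) : G) := by group
      rw [h7] at h6
      have h8 := hM.conj_mem _ h6 ((a s d : A) : G)⁻¹
      have h9 : ((a s d : A) : G)⁻¹ * ((a s c * (a s d)⁻¹ : A) : G) * (((a s d : A) : G)⁻¹)⁻¹ =
          (((a s d)⁻¹ * (a s c) : A) : G) := by
        push_cast
        group
      rw [h9] at h8
      have h10 : (QuotientGroup.mk (a s d) : A ⧸ M.subgroupOf A) = QuotientGroup.mk (a s c) := by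
        rw [QuotientGroup.eq, Subgroup.mem_subgroupOf]
        exact h8
      rw [ha1, ha1] at h10
      rw [h10]

end Pool.Agent.H25.WP
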