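import Pool.Agent.H25.WP.Defs

/-!
[H25 WP WR]  Restricted permutational wreath products.

`Win H Om`: every finite set of points of the `H`-set `Om` lies in a finite `W` for which `Om` has a colouring with `|W|` colours such that
every translate `h W` contains each colour exactly once.  True for `Om = H` with `PC H` (`win_reg`) and for residually finite
actions (`win_res`: every finite set of points is mapped injectively by some equivariant map to a finite `H`-set).
`Wr A H Om`: the elements `(n, h)` of the semidirect product `(Om → A) ⋊ H` with `n x ≠ 1` for finitely many `x` only.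
`core`: `lam : Om → R`, `y : J → Om` with `j ↦ lam (y j)` bijective; `α : A → ZMod s` with `α 1 = 0`; colour `r` of `n`:
`∑ α (n x)` over the `x` with `lam x = r`.  If `P u : Om → A` (`u : J → S`) has coordinates independent of `u` outside the window `y j`
and coordinate `β j (u j)` at `y j` with `α ∘ β j` bijective, then `u ↦` colours of `P u` is bijective, since each colour class meets the
window once.
`wr_pc`: `S_A`, `κ_A` for the values, `W`, `lam` for the support points, `T`, `κ_T` for the second components;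
`S` = all `(u, t)`, `u` in `S_A` on `W` and `1` outside, `t ∈ T`.
`(n, h) (u, t)⁻¹` has the coordinates `n x * (u (t h⁻¹ x))⁻¹` (window `h t⁻¹ W`) and second component `h t⁻¹`;
`(u, t)⁻¹ (n, h)` has the coordinates `(u (t x))⁻¹ * n (t x)` (window `t⁻¹ W`) and second component `t⁻¹ h`.
-/

set_option autoImplicit false

namespace Pool.Agent.H25.WP

universe u v w

/-- Every finite set of points lies in a finite `W` for which the points have a colouring with `|W|` colours such that every
translate `h W` contains each colour exactly once. -/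
def Win (H : Type v) (Om : Type w) [Group H] [MulAction H Om] : Prop :=
  ∀ F : Finset Om, ∃ W : Finset Om, F ⊆ W ∧ ∃ lam : Om → Fin W.card, ∀ h : H,
    Function.Bijective (fun x : {x // x ∈ W} => lam (h • (x : Om)))

/-- The restricted wreath product of `A` with the group `H` acting on `Om`: the `(n, h)`, `n : Om → A` with finite support. -/
def Wr (A : Type u) (H : Type v) (Om : Type w) [Group A] [Group H] [MulAction H Om] :
    Subgroup ((Om → A) ⋊[mulAutArrow] H) where
  carrier := {g | (Function.mulSupport g.left).Finite}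
  mul_mem' := by
    intro a b ha hb
    have h1 : (Function.mulSupport fun x => b.left (a.right⁻¹ • x)).Finite := by
      have h2 : (Function.mulSupport fun x => b.left (a.right⁻¹ • x)) =
          (fun x => a.right⁻¹ • x) ⁻¹' (Function.mulSupport b.left) := rfl
      rw [h2]
      exact Set.Finite.preimage (MulAction.injective a.right⁻¹).injOn hb
    exact (Set.Finite.union ha h1).subset (Function.mulSupport_mul _ _)
  one_mem' := by
    simp
  inv_mem' := by
    intro a ha
    have h2 : (Function.mulSupport (a⁻¹).left) = (fun x => (a.right⁻¹)⁻¹ • x) ⁻¹' (Function.mulSupport a.left) := by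
      ext x
      show ((a.left ((a.right⁻¹)⁻¹ • x))⁻¹ ≠ 1) ↔ (a.left ((a.right⁻¹)⁻¹ • x) ≠ 1)
      rw [ne_eq, inv_eq_one]
    change (Function.mulSupport (a⁻¹).left).Finite
    rw [h2]
    exact Set.Finite.preimage (MulAction.injective (a.right⁻¹)⁻¹).injOn ha

theorem win_reg {H : Type v} [Group H] (hH : PC H) : Win H H := by
  classical
  intro F
  obtain ⟨S, hS, κ, hκ⟩ := hH (F.image (fun x => x⁻¹))
  have hc : (S.image (fun x => x⁻¹)).card = S.card := Finset.card_image_of_injective _ inv_injective
  refine ⟨S.image (fun x => x⁻¹), ?_, fun x => Fin.cast hc.symm (κ x), ?_⟩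
  · intro f hf
    rw [Finset.mem_image]
    exact ⟨f⁻¹, hS (Finset.mem_image_of_mem _ hf), inv_inv f⟩
  · intro h
    have h1 : (fun x : {x // x ∈ S.image (fun x => x⁻¹)} => (Fin.cast hc.symm (κ (h • (x : H))))) =
        (finCongr hc.symm) ∘ (fun s : {x // x ∈ S} => κ (h * (s : H)⁻¹)) ∘
          (fun x : {x // x ∈ S.image (fun x => x⁻¹)} => (⟨(x : H)⁻¹, by
            obtain ⟨s, hs, hx⟩ := Finset.mem_image.mp x.2
            rw [← hx, inv_inv]
            exact hs⟩ : {x // x ∈ S})) := by
      funext x
      simp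
    rw [h1]
    refine (finCongr hc.symm).bijective.comp ((hκ h).1.comp ⟨?_, ?_⟩)
    · intro x y hxy
      exact Subtype.ext (inv_injective (congrArg Subtype.val hxy))
    · intro s
      exact ⟨⟨(s : H)⁻¹, Finset.mem_image_of_mem _ s.2⟩, Subtype.ext (inv_inv _)⟩

theorem win_res {H : Type v} {Om : Type w} [Group H] [MulAction H Om]
    (h : ∀ F : Finset Om, ∃ (Q : Type w) (_ : MulAction H Q) (_ : Finite Q) (p : Om → Q),
      (∀ (g : H) (x : Om), p (g • x) = g • p x) ∧ Set.InjOn p F) : Win H Om := by
  classical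
  intro F
  obtain ⟨Q, hQ, hfin, p, hp, hinj⟩ := h F
  -- the image of `p`, an invariant finite set
  have : Finite (Set.range p) := inferInstance
  have := Fintype.ofFinite (Set.range p)
  have hσ : ∀ q : Set.range p, ∃ x : Om, p x = q ∧ ((q : Q) ∈ F.image p → x ∈ F) := by
    intro q
    by_cases hq : (q : Q) ∈ F.image p
    · obtain ⟨f, hf, hfq⟩ := Finset.mem_image.mp hq
      exact ⟨f, hfq, fun _ => hf⟩
    · obtain ⟨x, hx⟩ := q.2
      exact ⟨x, hx, fun h' => absurd h' hq⟩
  choose σ hσ1 hσ2 using hσ
  have hσi : Function.Injective σ := by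
    intro a b hab
    apply Subtype.ext
    rw [← hσ1 a, ← hσ1 b, hab]
  have hc : (Finset.univ.image σ).card = Fintype.card (Set.range p) := by
    rw [Finset.card_image_of_injective _ hσi, Finset.card_univ]
  have e : Set.range p ≃ Fin (Finset.univ.image σ).card := Fintype.equivFinOfCardEq hc.symm
  refine ⟨Finset.univ.image σ, ?_, fun x => e ⟨p x, Set.mem_range_self x⟩, ?_⟩
  · intro f hf
    rw [Finset.mem_image]
    refine ⟨⟨p f, Set.mem_range_self f⟩, Finset.mem_univ _, ?_⟩
    exact hinj (hσ2 ⟨p f, Set.mem_range_self f⟩ (Finset.mem_image_of_mem p hf)) hf (hσ1 _)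
  · intro g
    refine e.bijective.comp ⟨?_, ?_⟩
    · intro x y hxy
      have h1 : p (g • (x : Om)) = p (g • (y : Om)) := congrArg Subtype.val hxy
      rw [hp, hp] at h1
      have h2 : p (x : Om) = p (y : Om) := MulAction.injective g h1
      obtain ⟨a, -, ha⟩ := Finset.mem_image.mp x.2
      obtain ⟨b, -, hb⟩ := Finset.mem_image.mp y.2
      apply Subtype.ext
      rw [← ha, ← hb] at h2 ⊢
      rw [hσ1, hσ1] at h2
      rw [Subtype.ext h2]
    · intro q
      obtain ⟨x, hx⟩ := q.2
      refine ⟨⟨σ ⟨p (g⁻¹ • x), Set.mem_range_self _⟩, Finset.mem_image_of_mem σ (Finset.mem_univ _)⟩, ?_⟩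
      apply Subtype.ext
      show p (g • σ ⟨p (g⁻¹ • x), Set.mem_range_self _⟩) = q
      rw [hp, hσ1]
      show g • p (g⁻¹ • x) = q
      rw [hp, smul_inv_smul, hx]

private theorem prodbij {U T V C : Type*} {f : T → C} {g : T → U → V} (hf : Function.Bijective f)
    (hg : ∀ t, Function.Bijective (g t)) : Function.Bijective (fun p : U × T => (g p.2 p.1, f p.2)) := by
  constructor
  · rintro ⟨u, t⟩ ⟨u', t'⟩ h
    simp only [Prod.mk.injEq] at h
    have h1 : t = t' := hf.1 h.2
    subst h1
    exact Prod.ext ((hg t).1 h.1) rfl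
  · rintro ⟨v, c⟩
    obtain ⟨t, rfl⟩ := hf.2 c
    obtain ⟨u, rfl⟩ := (hg t).2 v
    exact ⟨(u, t), rfl⟩

private theorem core {A H J R S : Type*} [Group A] {s : ℕ} (α : A → ZMod s) (hα : α 1 = 0)
    (lam : H → R) (y : J → H) (hb : Function.Bijective fun j => lam (y j)) (P : (J → S) → H → A)
    (hP : ∀ u, (Function.mulSupport (P u)).Finite) (m : H → A) (hm : ∀ u x, (∀ j, y j ≠ x) → P u x = m x)
    (β : J → S → A) (hβ : ∀ j, Function.Bijective fun v => α (β j v)) (hy : ∀ u j, P u (y j) = β j (u j)) :
    Function.Bijective (fun u r => ∑ᶠ x, Set.indicator {x | lam x = r} (fun x => α (P u x)) x : (J → S) → R → ZMod s) := by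
  classical
  set b : J ≃ R := Equiv.ofBijective _ hb with hbd
  have hbj : ∀ j, b j = lam (y j) := fun j => rfl
  -- the part outside the window
  set K : R → ZMod s := fun r => ∑ᶠ x, Set.indicator {x | lam x = r ∧ ∀ j, y j ≠ x} (fun x => α (m x)) x with hK
  have key : ∀ (u : J → S) (r : R), (∑ᶠ x, Set.indicator {x | lam x = r} (fun x => α (P u x)) x) =
      K r + α (β (b.symm r) (u (b.symm r))) := by
    intro u r
    set j : J := b.symm r with hj
    have hjr : lam (y j) = r := by rw [← hbj, hj, Equiv.apply_symm_apply]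
    have hsplit : ∀ x, Set.indicator {x | lam x = r} (fun x => α (P u x)) x =
        Set.indicator {x | lam x = r ∧ ∀ j, y j ≠ x} (fun x => α (m x)) x +
          (if x = y j then α (β j (u j)) else 0) := by
      intro x
      by_cases hx : x = y j
      · have h1 : x ∉ {x | lam x = r ∧ ∀ j, y j ≠ x} := fun h => h.2 j hx.symm
        have h2 : x ∈ {x | lam x = r} := by
          rw [hx]
          exact hjr
        rw [Set.indicator_of_notMem h1, Set.indicator_of_mem h2, if_pos hx, zero_add, hx, hy]
      · rw [if_neg hx, add_zero]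
        by_cases hr : lam x = r
        · have h3 : ∀ j', y j' ≠ x := by
            intro j' hj'
            apply hx
            have h4 : b j' = r := by rw [hbj, hj', hr]
            have h5 : j' = j := by rw [hj, ← h4, Equiv.symm_apply_apply]
            rw [← hj', h5]
          have h1 : x ∈ {x | lam x = r ∧ ∀ j, y j ≠ x} := ⟨hr, h3⟩
          have h2 : x ∈ {x | lam x = r} := hr
          rw [Set.indicator_of_mem h1, Set.indicator_of_mem h2, hm u x h3]
        · have h1 : x ∉ {x | lam x = r ∧ ∀ j, y j ≠ x} := fun h => hr h.1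
          have h2 : x ∉ {x | lam x = r} := hr
          rw [Set.indicator_of_notMem h1, Set.indicator_of_notMem h2]
    rw [finsum_congr hsplit, finsum_add_distrib]
    · congr 1
      rw [finsum_eq_single _ (y j)]
      · rw [if_pos rfl]
      · intro x hx
        rw [if_neg hx]
    · refine (hP u).subset ?_
      intro x hx
      rw [Function.mem_support] at hx
      rw [Function.mem_mulSupport]
      intro h1
      apply hx
      by_cases hxm : x ∈ {x | lam x = r ∧ ∀ j, y j ≠ x}
      · rw [Set.indicator_of_mem hxm, ← hm u x hxm.2, h1, hα]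
      · rw [Set.indicator_of_notMem hxm]
    · refine (Set.finite_singleton (y j)).subset ?_
      intro x hx
      rw [Function.mem_support] at hx
      by_contra h1
      exact hx (if_neg h1)
  constructor
  · intro u u' h
    funext j
    have h1 := congrFun h (b j)
    simp only at h1
    rw [key, key, Equiv.symm_apply_apply] at h1
    exact (hβ j).1 (add_left_cancel h1)
  · intro c
    choose g hg using fun j => (hβ j).2 (c (b j) - K (b j))
    refine ⟨g, ?_⟩
    funext r
    show (∑ᶠ x, Set.indicator {x | lam x = r} (fun x => α (P g x)) x) = c r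
    rw [key]
    have h1 := hg (b.symm r)
    simp only at h1
    rw [h1, Equiv.apply_symm_apply]
    ring

theorem wr_pc {A : Type u} {H : Type v} {Om : Type w} [Group A] [Group H] [MulAction H Om]
    (hA : PC A) (hH : PC H) (hW : Win H Om) : PC (Wr A H Om) := by
  classical
  refine pc_mk (fun F => ?_)
  -- the finite sets of values and of support points
  have hfs : ∀ f : Wr A H Om, (Function.mulSupport (f : (Om → A) ⋊[mulAutArrow] H).left).Finite := fun f => f.2
  set FW : Finset Om := F.biUnion (fun f => (hfs f).toFinset) with hFW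
  set FA : Finset A := insert 1 (F.biUnion (fun f => (hfs f).toFinset.image (f : (Om → A) ⋊[mulAutArrow] H).left)) with hFA
  set FT : Finset H := F.image (fun f : Wr A H Om => (f : (Om → A) ⋊[mulAutArrow] H).right) with hFT
  obtain ⟨SA, hSA, κA, hκA⟩ := hA FA
  obtain ⟨T, hT, κT, hκT⟩ := hH FT
  obtain ⟨SW, hSW, lam, hlam⟩ := hW FW
  have hs : 0 < SA.card := lt_of_le_of_lt (Nat.zero_le _) (κA 1).2
  have : NeZero SA.card := ⟨hs.ne'⟩
  obtain ⟨θ⟩ : Nonempty (Fin SA.card ≃ ZMod SA.card) :=
    ⟨Fintype.equivOfCardEq (by rw [Fintype.card_fin, ZMod.card])⟩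
  set α : A → ZMod SA.card := fun a => θ (κA a) - θ (κA 1) with hα
  have hα1 : α 1 = 0 := by simp [hα]
  have hαr : ∀ a : A, Function.Bijective fun v : {x // x ∈ SA} => α (a * (v : A)⁻¹) := fun a =>
    (Equiv.subRight (θ (κA 1))).bijective.comp (θ.bijective.comp (hκA a).1)
  have hαl : ∀ a : A, Function.Bijective fun v : {x // x ∈ SA} => α ((v : A)⁻¹ * a) := fun a =>
    (Equiv.subRight (θ (κA 1))).bijective.comp (θ.bijective.comp (hκA a).2)
  -- the elements of `S`
  set ext : ({x // x ∈ SW} → {x // x ∈ SA}) → Om → A := fun q x =>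
    if h : x ∈ SW then (q ⟨x, h⟩ : A) else 1 with hext
  have hext1 : ∀ q (j : {x // x ∈ SW}), ext q j = q j := by
    intro q j
    simp only [hext]
    rw [dif_pos j.2]
  have hext2 : ∀ q x, (∀ j : {x // x ∈ SW}, (j : Om) ≠ x) → ext q x = 1 := by
    intro q x hx
    simp only [hext]
    rw [dif_neg]
    intro h1
    exact hx ⟨x, h1⟩ rfl
  have hextf : ∀ q, (Function.mulSupport (ext q)).Finite := by
    intro q
    refine SW.finite_toSet.subset ?_
    intro x hx
    rw [Function.mem_mulSupport] at hx
    by_contra h1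
    apply hx
    apply hext2
    intro j hj
    apply h1
    rw [Finset.mem_coe, ← hj]
    exact j.2
  refine ⟨({x // x ∈ SW} → {x // x ∈ SA}) × {x // x ∈ T}, inferInstance,
    fun p => ⟨⟨ext p.1, p.2⟩, hextf p.1⟩, (Fin SW.card → ZMod SA.card) × Fin T.card,
    fun g => (fun r => ∑ᶠ x, Set.indicator {x | lam x = r} (fun x => α ((g : (Om → A) ⋊[mulAutArrow] H).left x)) x,
      κT (g : (Om → A) ⋊[mulAutArrow] H).right), ?_, ?_⟩
  · intro f hf
    have hval : ∀ x, (f : (Om → A) ⋊[mulAutArrow] H).left x ∈ SA := by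
      intro x
      apply hSA
      rw [hFA, Finset.mem_insert]
      by_cases hx : (f : (Om → A) ⋊[mulAutArrow] H).left x = 1
      · exact Or.inl hx
      · right
        rw [Finset.mem_biUnion]
        exact ⟨f, hf, Finset.mem_image_of_mem _ ((hfs f).mem_toFinset.mpr hx)⟩
    have hsup : ∀ x, (f : (Om → A) ⋊[mulAutArrow] H).left x ≠ 1 → x ∈ SW := by
      intro x hx
      apply hSW
      rw [hFW, Finset.mem_biUnion]
      exact ⟨f, hf, (hfs f).mem_toFinset.mpr hx⟩
    have ht : (f : (Om → A) ⋊[mulAutArrow] H).right ∈ T :=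
      hT (Finset.mem_image_of_mem _ hf)
    refine ⟨(fun j => ⟨(f : (Om → A) ⋊[mulAutArrow] H).left j, hval _⟩, ⟨_, ht⟩), ?_⟩
    apply Subtype.ext
    apply SemidirectProduct.ext
    · funext x
      simp only [hext]
      by_cases hx : x ∈ SW
      · rw [dif_pos hx]
      · rw [dif_neg hx]
        by_contra h1
        exact hx (hsup x (Ne.symm h1))
    · rfl
  · intro g
    constructor
    · refine prodbij (g := fun t q r => ∑ᶠ x, Set.indicator {x | lam x = r} (fun x =>
        α (((g * (⟨⟨ext q, t⟩, hextf q⟩ : Wr A H Om)⁻¹ : Wr A H Om) : (Om → A) ⋊[mulAutArrow] H).left x)) x)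
        (f := fun t : {x // x ∈ T} => κT ((g : (Om → A) ⋊[mulAutArrow] H).right * (t : H)⁻¹))
        (hκT (g : (Om → A) ⋊[mulAutArrow] H).right).1 ?_
      intro t
      have hleft : ∀ q x, ((g * (⟨⟨ext q, t⟩, hextf q⟩ : Wr A H Om)⁻¹ : Wr A H Om) : (Om → A) ⋊[mulAutArrow] H).left x =
          (g : (Om → A) ⋊[mulAutArrow] H).left x *
            (ext q (((t : H)⁻¹)⁻¹ • ((g : (Om → A) ⋊[mulAutArrow] H).right⁻¹ • x)))⁻¹ := by
        intro q x
        rfl
      refine core α hα1 lam
        (fun j : {x // x ∈ SW} => ((g : (Om → A) ⋊[mulAutArrow] H).right * (t : H)⁻¹) • (j : Om))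
        (hlam ((g : (Om → A) ⋊[mulAutArrow] H).right * (t : H)⁻¹))
        (fun q x => ((g * (⟨⟨ext q, t⟩, hextf q⟩ : Wr A H Om)⁻¹ : Wr A H Om) : (Om → A) ⋊[mulAutArrow] H).left x)
        (fun q => hfs _) (g : (Om → A) ⋊[mulAutArrow] H).left ?_
        (fun (j : {x // x ∈ SW}) (v : {x // x ∈ SA}) => (g : (Om → A) ⋊[mulAutArrow] H).left
          (((g : (Om → A) ⋊[mulAutArrow] H).right * (t : H)⁻¹) • (j : Om)) * (v : A)⁻¹) (fun j => hαr _) ?_
      · intro q x hx
        simp only [hleft]
        rw [hext2, inv_one, mul_one]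
        intro j hj
        apply hx j
        rw [hj, inv_inv, smul_smul, smul_smul]
        simp
      · intro q j
        simp only [hleft]
        have h1 : ((t : H)⁻¹)⁻¹ • ((g : (Om → A) ⋊[mulAutArrow] H).right⁻¹ •
            (((g : (Om → A) ⋊[mulAutArrow] H).right * (t : H)⁻¹) • (j : Om))) = (j : Om) := by
          rw [smul_smul, smul_smul]
          simp
        rw [h1, hext1]
    · refine prodbij (g := fun t q r => ∑ᶠ x, Set.indicator {x | lam x = r} (fun x =>
        α ((((⟨⟨ext q, t⟩, hextf q⟩ : Wr A H Om)⁻¹ * g : Wr A H Om) : (Om → A) ⋊[mulAutArrow] H).left x)) x)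
        (f := fun t : {x // x ∈ T} => κT ((t : H)⁻¹ * (g : (Om → A) ⋊[mulAutArrow] H).right))
        (hκT (g : (Om → A) ⋊[mulAutArrow] H).right).2 ?_
      intro t
      have hleft : ∀ q x, (((⟨⟨ext q, t⟩, hextf q⟩ : Wr A H Om)⁻¹ * g : Wr A H Om) : (Om → A) ⋊[mulAutArrow] H).left x =
          (ext q (((t : H)⁻¹)⁻¹ • x))⁻¹ * (g : (Om → A) ⋊[mulAutArrow] H).left (((t : H)⁻¹)⁻¹ • x) := by
        intro q x
        rfl
      refine core α hα1 lam (fun j : {x // x ∈ SW} => (t : H)⁻¹ • (j : Om))
        (hlam ((t : H)⁻¹))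
        (fun q x => (((⟨⟨ext q, t⟩, hextf q⟩ : Wr A H Om)⁻¹ * g : Wr A H Om) : (Om → A) ⋊[mulAutArrow] H).left x)
        (fun q => hfs _) (fun x => (g : (Om → A) ⋊[mulAutArrow] H).left (((t : H)⁻¹)⁻¹ • x)) ?_
        (fun (j : {x // x ∈ SW}) (v : {x // x ∈ SA}) => (v : A)⁻¹ *
          (g : (Om → A) ⋊[mulAutArrow] H).left (((t : H)⁻¹)⁻¹ • ((t : H)⁻¹ • (j : Om))))
        (fun j => hαl _) ?_
      · intro q x hx
        simp only [hleft]
        rw [hext2, inv_one, one_mul]
        intro j hj
        apply hx j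
        rw [hj, smul_smul]
        simp
      · intro q j
        simp only [hleft]
        have h1 : ((t : H)⁻¹)⁻¹ • ((t : H)⁻¹ • (j : Om)) = (j : Om) := inv_smul_smul _ _
        rw [h1, hext1]

end Pool.Agent.H25.WP
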